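import Pool.Agent.H.MP_66e6f4_an.D

namespace Pool.Agent.Results.MP_66e6f4_an.No

open MeasureTheory Pool.Agent.H.MP_66e6f4_an Real
open scoped ContDiff

theorem result : ∃ (f : ℝ → ℝ) (u : EuclideanSpace ℝ (Fin 3) → ℝ),
    ContDiff ℝ ∞ f ∧ HasCompactSupport f ∧ (∀ t, 0 ≤ f t) ∧ 0 < f 0 ∧
    ContDiff ℝ 2 u ∧ (∀ x, Laplacian.laplacian u x = f (u x)) ∧
    (∀ x, fderiv ℝ u x ≠ 0) ∧ (∀ x, 0 < u x → 0 < x 0) ∧
    (∃ x, 0 < u x) ∧ (∃ x, u x = 0) ∧
    ∀ (e : EuclideanSpace ℝ (Fin 3)) (c : ℝ) (V : ℝ → ℝ), ¬∀ x, u x = V (inner ℝ e x + c) := by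
  obtain ⟨f, v, f1, f2, f3, f4, v2, v1, v0, v3, h⟩ := plane
  have n : ∀ x : F, x 0 ≤ 0 → |v (fi x) - ((fi x).re - 9)| ≤ 2⁻¹ := fun x hx =>
    v0 _ (by rw [fi_norm]; exact exp_le_one_iff.2 hx)
  have m : ∀ x : F, x 0 ≤ 0 → v (fi x) < 0 := fun x hx => by
    have a := (abs_le.1 (n x hx)).2
    have b := Complex.re_le_norm (fi x)
    rw [fi_norm] at b
    linarith [exp_le_one_iff.2 hx]
  have p : 0 < v (fi (EuclideanSpace.single 0 3)) := by
    simpa [fi, LL_apply] using v3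
  have c := (v2.comp fi_cd).continuous
  refine ⟨f, fun x => v (fi x), f1, f2, f3, f4, v2.comp fi_cd, fun x => (cmp_lap v2 x).trans (h _),
    fun x hx => ?_, fun x hx => not_le.1 fun a => (m x a).not_gt hx, ⟨_, p⟩,
    intermediate_value_univ 0 _ c ⟨(m 0 le_rfl).le, p.le⟩, fun e c V H => ?_⟩
  · rw [cmp_d v2] at hx
    have a := DFunLike.congr_fun hx !₂[(fi x)⁻¹.re, (fi x)⁻¹.im, 0]
    have b : LL !₂[(fi x)⁻¹.re, (fi x)⁻¹.im, 0] = (fi x)⁻¹ := by
      rw [LL_apply]; exact Complex.re_add_im _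
    simp only [ContinuousLinearMap.comp_apply, ContinuousLinearMap.smul_apply, b, smul_eq_mul,
      mul_inv_cancel₀ (show fi x ≠ 0 from Complex.exp_ne_zero _)] at a
    exact v1 _ a
  · have i : ∀ t : ℝ, inner ℝ e (EuclideanSpace.single 1 t : F) = t * e 1 := fun t => by
      simp [EuclideanSpace.inner_single_right]
    by_cases z : e 1 = 0
    · have a := H (EuclideanSpace.single 1 π)
      have b := H (EuclideanSpace.single 1 0)
      rw [i, z, mul_zero] at a b
      beta_reduce at a b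
      have a' := (abs_le.1 (n (EuclideanSpace.single 1 π) (by simp))).2
      have b' := (abs_le.1 (n (EuclideanSpace.single 1 0) (by simp))).1
      rw [a, show fi (EuclideanSpace.single 1 π) = -1 by simp [fi, LL_apply]] at a'
      rw [b, show fi (EuclideanSpace.single 1 0) = 1 by simp [fi, LL_apply]] at b'
      norm_num at a' b'
      linarith
    · have a := H (EuclideanSpace.single 1 (inner ℝ e (EuclideanSpace.single 0 3 : F) / e 1))
      rw [i, div_mul_cancel₀ _ z, ← H] at a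
      exact (m _ (by simp)).not_gt (p.trans_eq a.symm)

end Pool.Agent.Results.MP_66e6f4_an.No
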